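import Mathlib
import Pool.Agent.H558Z.CFI

set_option autoImplicit false

namespace Pool.Agent.Results.MP_f836f4_co.ANoBound

/-- Infinite motion: every automorphism other than the identity moves infinitely many vertices. -/
def InfiniteMotion {V : Type} (X : SimpleGraph V) : Prop :=
  ∀ σ : X ≃g X, (∃ v, σ v ≠ v) → {v | σ v ≠ v}.Infinite

/-- A 2-colouring (`true` is red) is asymmetric if only the identity automorphism preserves it. -/
def Asymmetric {V : Type} (X : SimpleGraph V) (c : V → Bool) : Prop :=
  ∀ σ : X ≃g X, (∀ v, c (σ v) = c v) → ∀ v, σ v = v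

/-- One connected, locally finite rooted graph with infinite motion in which every asymmetric
2-colouring has unboundedly many red vertices on the spheres about the root. -/
theorem result :
    ∃ (V : Type) (X : SimpleGraph V) (v₀ : V),
      X.Connected ∧ (∀ v, (X.neighborSet v).Finite) ∧ InfiniteMotion X ∧
      ∀ c : V → Bool, Asymmetric X c →
        ∀ C : ℕ, ∃ r : ℕ, C < {v | X.dist v₀ v = r ∧ c v = true}.ncard := by
  refine ⟨_, Pool.Agent.H558Z.CFI.G, none, Pool.Agent.H558Z.CFI.connected,
    Pool.Agent.H558Z.CFI.nbr_finite, ?_, ?_⟩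
  · rintro σ ⟨v, hv⟩ hfin
    exact hv (Pool.Agent.H558Z.CFI.motion σ hfin v)
  · intro c hc C
    by_contra h
    push Not at h
    obtain ⟨σ, h1, a, ha⟩ := Pool.Agent.H558Z.CFI.main c C h
    exact ha (hc σ h1 a)

end Pool.Agent.Results.MP_f836f4_co.ANoBound
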